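import Pool.Agent.V1169.Graph4

/-! # `MP_ee90f2_an`, Q1: there is a non-trivial `c`-removable continuum in the plane

`Pool.Agent.V1169.LocallyConvexOn U f` says that every point of `U` has an open convex
neighbourhood contained in `U` on which `f` is convex; `Pool.Agent.V1169.CRemovable A` says that
`A` is closed and every continuous function on the plane that is locally convex off `A` is convex.

The continuum is the graph over `[0, 1]` of
`gam x = ∑ n, 4 ^ (-n) * 2 ^ (-4 ^ n) * tri (2 ^ (4 ^ n) * x)`, where `tri` is the distance to the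
nearest even integer.
-/

set_option autoImplicit false

open Set Pool.Agent.V1169

namespace Pool.Agent.Results.MP_ee90f2_an.RemovableContinuum

/-- There is a non-trivial `c`-removable continuum in the plane. -/
theorem result : ∃ K : Set (ℝ × ℝ), IsCompact K ∧ IsConnected K ∧ K.Nontrivial ∧ CRemovable K := by
  have hc : Continuous fun x : ℝ => (x, Graph.gam x) := continuous_id.prodMk Graph.continuous_gam
  have hK : IsCompact ((fun x : ℝ => (x, Graph.gam x)) '' Icc 0 1) := isCompact_Icc.image hc
  refine ⟨(fun x : ℝ => (x, Graph.gam x)) '' Icc 0 1, hK,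
    (isConnected_Icc zero_le_one).image _ hc.continuousOn, ?_, ?_⟩
  · refine ⟨(0, Graph.gam 0), ⟨0, by simp, rfl⟩, (1, Graph.gam 1), ⟨1, by simp, rfl⟩, fun h => ?_⟩
    exact zero_ne_one (congrArg Prod.fst h)
  · refine Graph.CRemovable.mono Graph.isGraph_removable hK.isClosed ?_
    rintro z ⟨x, -, rfl⟩
    rfl

end Pool.Agent.Results.MP_ee90f2_an.RemovableContinuum
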